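import Pool.Agent.Helper9.PP.Bil
import Pool.Agent.Helper90.FJ.Dual

/-!
Project PP (helper9): package MOD, modifications of bundles at a point.
-/

set_option autoImplicit false
set_option linter.unusedSectionVars false

namespace Pool.Agent.Helper22.PP

open FF Module Pool.Agent.Helper9.FJ Pool.Agent.Helper9.PP

theorem det_mul_expand' {R ι : Type*} [CommRing R] [Fintype ι] {ρ : ℕ}
    (Y : Matrix (Fin ρ) ι R) (N : Matrix ι (Fin ρ) R) :
    (Y * N).det = ∑ S : Fin ρ → ι, (∏ i, Y i (S i)) * (N.submatrix S id).det := by
  classical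
  have h1 := (Matrix.detRowAlternating (n := Fin ρ) (R := R)).toMultilinearMap.map_sum
    (fun (i : Fin ρ) (j : ι) => Y i j • N j)
  have h2 : (fun i : Fin ρ => ∑ j : ι, Y i j • N j) = (Y * N : Matrix (Fin ρ) (Fin ρ) R) := by
    funext i l
    rw [Finset.sum_apply, Matrix.mul_apply]
    rfl
  rw [h2] at h1
  have h3 : (Y * N).det = _ := h1
  rw [h3]
  refine Finset.sum_congr rfl fun S _ => ?_
  exact (Matrix.detRowAlternating (n := Fin ρ) (R := R)).toMultilinearMap.map_smul_univ
    (fun i : Fin ρ => Y i (S i)) (fun i => N (S i))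

variable {K : Type} [Field K] [Algebra ℂ K] {ι : Type} [Fintype ι] [DecidableEq ι]

/-- the matrix of a quotient has a left inverse -/
theorem left_inv (F : Bn K ι) {ρ : ℕ} {Λ : Matrix ι (Fin ρ) K} {d : Place ℂ K →₀ ℤ}
    (h : IsQt F Λ d) (P : Place ℂ K) : ∃ Y : Matrix (Fin ρ) ι K, Y * Λ = 1 := by
  obtain ⟨S, hS, -⟩ := (h P).2
  refine ⟨((F.B P * Λ).submatrix S id)⁻¹ * (F.B P).submatrix S id, ?_⟩
  have h1 : (F.B P).submatrix S id * Λ = (F.B P * Λ).submatrix S id := by
    ext i j
    simp [Matrix.mul_apply]
  rw [Matrix.mul_assoc, h1, Matrix.nonsing_inv_mul _ (isUnit_iff_ne_zero.2 hS)]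

/-- **Package MOD.** -/
theorem p_mod : S_MOD := by
  classical
  intro K _ _ _ ι _ _ F β P1 z hz hz1 hF
  obtain ⟨i0, hi0, ho⟩ := hz1
  obtain ⟨t, ht0, ht⟩ := P1.surj
  obtain ⟨y, hy⟩ : ∃ y : ι → K, y = (F.B P1).mulVec z := ⟨_, rfl⟩
  rw [← hy] at hi0 ho
  simp only [← hy] at hz
  have hyinv : Ge P1 0 (y i0)⁻¹ := Or.inr (by rw [P1.ord_inv, ho]; simp)
  have hc : ∀ i, Ge P1 0 (y i / y i0) := by
    intro i
    have := (hz i).mul hyinv
    rwa [add_zero, ← div_eq_mul_inv] at this
  have hti : Ge P1 (-1) t⁻¹ := Or.inr (by rw [P1.ord_inv, ht])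
  obtain ⟨U, hU⟩ : ∃ U : Matrix ι ι K, ∀ i j, U i j = if i = i0 then (if j = i0 then t else 0) else
    (if j = i0 then -(y i / y i0) else if i = j then 1 else 0) := ⟨fun i j => _, fun i j => rfl⟩
  obtain ⟨V, hV⟩ : ∃ V : Matrix ι ι K, ∀ i j, V i j =
      if j = i0 then (y i / y i0) * t⁻¹ else if i = j then 1 else 0 :=
    ⟨fun i j => _, fun i j => rfl⟩
  have hVU : V * U = 1 := by
    ext i j
    rw [Matrix.mul_apply, ← Finset.add_sum_erase _ _ (Finset.mem_univ i0)]
    have h1 : ∑ k ∈ Finset.univ.erase i0, V i k * U k j =
        if i = i0 then 0 else U i j := by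
      split_ifs with hi
      · refine Finset.sum_eq_zero fun k hk => ?_
        have hk : k ≠ i0 := (Finset.mem_erase.1 hk).1
        rw [hV, if_neg hk, if_neg (by rw [hi]; exact hk.symm), zero_mul]
      · rw [Finset.sum_eq_single_of_mem i (Finset.mem_erase.2 ⟨hi, Finset.mem_univ _⟩)]
        · rw [hV, if_neg hi, if_pos rfl, one_mul]
        · intro k hk hki
          have hk : k ≠ i0 := (Finset.mem_erase.1 hk).1
          rw [hV, if_neg hk, if_neg (Ne.symm hki), zero_mul]
    rw [h1, hV, hU, if_pos rfl, if_pos rfl, Matrix.one_apply]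
    by_cases hi : i = i0
    · subst hi
      rw [if_pos rfl, div_self hi0, one_mul]
      by_cases hj : j = i
      · subst hj; simp [ht0]
      · rw [if_neg hj, if_neg (Ne.symm hj)]; simp
    · rw [if_neg hi, hU, if_neg hi]
      by_cases hj : j = i0
      · subst hj
        rw [if_pos rfl, if_pos rfl, if_neg hi]
        field_simp
        ring
      · rw [if_neg hj, if_neg hj]; simp
  have hdetU : U.det ≠ 0 := by
    have := congrArg Matrix.det hVU
    rw [Matrix.det_mul, Matrix.det_one] at this
    exact right_ne_zero_of_mul (by rw [this]; exact one_ne_zero)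
  let F' : Bn K ι :=
    { B := fun P => if P = P1 then U * F.B P1 else F.B P
      det_ne := by
        intro P
        by_cases h : P = P1
        · rw [if_pos h, Matrix.det_mul]
          exact mul_ne_zero hdetU (F.det_ne P1)
        · rw [if_neg h]; exact F.det_ne P
      fin := by
        refine (F.fin.insert P1).subset fun P hP => ?_
        by_cases h : P = P1
        · exact Or.inl h
        · right
          rw [Set.mem_ofPred_eq, if_neg h] at hP
          exact hP }
  have hB1 : F'.B P1 = U * F.B P1 := if_pos rfl
  have hB : ∀ P, P ≠ P1 → F'.B P = F.B P := fun P h => if_neg h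
  refine ⟨F', ?_, hB, ?_, U, ?_, hB1⟩
  · intro ρ Λ d' hρ hd'
    obtain ⟨Y, hY⟩ := left_inv F' hd' P1
    obtain ⟨d, hd⟩ := exists_qt F hY
    have h1 := hF ρ Λ d hρ hd
    have h2 : d ≤ d' + Finsupp.single P1 1 := by
      intro P
      by_cases hP : P = P1
      · subst hP
        obtain ⟨S, hS, hoS⟩ := (hd P).2
        have h3 : Ge P (-d' P - 1) ((F.B P * Λ).submatrix S id).det := by
          have h4 : (F.B P * Λ).submatrix S id =
              V.submatrix S id * (F'.B P * Λ) := by
            have h5 : F.B P * Λ = V * (F'.B P * Λ) := by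
              rw [hB1, ← Matrix.mul_assoc, ← Matrix.mul_assoc, hVU, Matrix.one_mul]
            rw [h5]
            ext i j
            simp [Matrix.mul_apply]
          rw [h4, det_mul_expand']
          refine Ge.sum _ fun T _ => ?_
          by_cases hT : Function.Injective T
          · have h6 : Ge P (∑ k, (if T k = i0 then (-1 : ℤ) else 0)) (∏ k, V.submatrix S id k (T k)) := by
              refine Ge.prod _ fun k _ => ?_
              rw [Matrix.submatrix_apply, hV]
              simp only [id]
              by_cases hk : T k = i0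
              · rw [if_pos hk, if_pos hk]
                have := (hc (S k)).mul hti
                rwa [zero_add] at this
              · rw [if_neg hk, if_neg hk]
                split_ifs
                · exact ge_one
                · exact ge_zero
            have h7 : (-1 : ℤ) ≤ ∑ k, (if T k = i0 then (-1 : ℤ) else 0) := by
              rw [Finset.sum_ite, Finset.sum_const_zero, add_zero, Finset.sum_const, nsmul_eq_mul]
              have h8 : (Finset.univ.filter fun k => T k = i0).card ≤ 1 := by
                rw [Finset.card_le_one]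
                intro a ha b hb
                exact hT ((Finset.mem_filter.1 ha).2.trans (Finset.mem_filter.1 hb).2.symm)
              have : ((Finset.univ.filter fun k => T k = i0).card : ℤ) ≤ 1 := by exact_mod_cast h8
              linarith
            have h9 := h6.mul ((hd' P).1 T)
            exact h9.mono (by linarith)
          · rw [Function.not_injective_iff] at hT
            obtain ⟨a, b, hab, hne⟩ := hT
            have h6 : ((F'.B P * Λ).submatrix T id).det = 0 := by
              refine Matrix.det_zero_of_row_eq hne ?_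
              ext j
              simp [Matrix.submatrix_apply, hab]
            rw [h6, mul_zero]
            exact ge_zero
        rw [ge_iff hS, hoS] at h3
        rw [Finsupp.add_apply, Finsupp.single_eq_same]
        linarith
      · obtain ⟨S, hS, hoS⟩ := (hd P).2
        have h3 := (hd' P).1 S
        rw [hB P hP, ge_iff hS, hoS] at h3
        rw [Finsupp.add_apply, Finsupp.single_eq_of_ne hP]
        linarith
    have h3 := ddeg_mono h2
    rw [ddeg_add, Pool.Agent.Helper90.FJ.ddeg_single_one] at h3
    have h4 : β * ρ ≤ ddeg d' := by linarith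
    exact_mod_cast h4
  · intro i
    rw [hB1, ← Matrix.mulVec_mulVec, ← hy, Matrix.mulVec, dotProduct,
      ← Finset.add_sum_erase _ _ (Finset.mem_univ i0)]
    by_cases hi : i = i0
    · subst hi
      rw [hU, if_pos rfl, if_pos rfl, Finset.sum_eq_zero, add_zero]
      · have := (ge_self (P := P1) t).mul (ge_self (P := P1) (y i))
        rwa [ht, ho, add_zero] at this
      · intro k hk
        rw [hU, if_pos rfl, if_neg (Finset.mem_erase.1 hk).1, zero_mul]
    · rw [Finset.sum_eq_single_of_mem i (Finset.mem_erase.2 ⟨hi, Finset.mem_univ _⟩)]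
      · have e1 : U i i0 = -(y i / y i0) := by rw [hU, if_neg hi, if_pos rfl]
        have e2 : U i i = 1 := by rw [hU, if_neg hi, if_neg hi, if_pos rfl]
        rw [e1, e2]
        have : -(y i / y i0) * y i0 + 1 * y i = 0 := by field_simp; ring
        rw [this]
        exact ge_zero
      · intro k hk hki
        rw [hU, if_neg hi, if_neg (Finset.mem_erase.1 hk).1, if_neg (Ne.symm hki), zero_mul]
  · intro i j
    rw [hU]
    split_ifs
    · exact (ge_self (P := P1) t).mono (by rw [ht]; norm_num)
    · exact ge_zero
    · exact (hc i).neg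
    · exact ge_one
    · exact ge_zero

end Pool.Agent.Helper22.PP
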